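import Pool.Agent.helper84.NR.SpecW

/-!
# Row `nrw:CCTW` (MP_133bfc_co)
-/

set_option autoImplicit false

namespace Pool.Agent.helper84.NR

open scoped Classical
open Finset

theorem CCTW (hXCL : XCLW_stmt) (hCLS : CLSW_stmt) (hRHO : RHO_stmt) : CCTW_stmt := by
  intro V F _ _ M x y J hT
  haveI : Fintype (Quot (lk M (inU M x y J))) := Fintype.ofFinite _
  rw [Nat.card_eq_fintype_card, ← Finset.card_univ]
  obtain ⟨hX1, hX2⟩ := hXCL V F M x y J hT
  obtain ⟨A0, hA0⟩ := M.cover x
  obtain ⟨B0, hB0⟩ := M.cover y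
  have h1 : (univ : Finset (Quot (lk M (inU M x y J)))) ⊆
      insert (Quot.mk _ A0) (insert (Quot.mk _ B0) (univ.filter fun q => Pure M x y J q)) := by
    intro q _
    rw [mem_insert, mem_insert]
    by_cases ha : ∃ A, OnV M.toCyc A x ∧ Quot.mk _ A = q
    · obtain ⟨A, hA, rfl⟩ := ha
      exact Or.inl (hX1 A A0 hA hA0)
    · by_cases hb : ∃ B, OnV M.toCyc B y ∧ Quot.mk _ B = q
      · obtain ⟨B, hB, rfl⟩ := hb
        exact Or.inr (Or.inl (hX2 B B0 hB hB0))
      · refine Or.inr (Or.inr ?_)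
        exact mem_filter.2 ⟨mem_univ _, fun A hA h => ha ⟨A, hA, h⟩, fun B hB h => hb ⟨B, hB, h⟩⟩
  have h2 : (univ : Finset (Quot (lk M (inU M x y J)))).card ≤
      (univ.filter fun q => Pure M x y J q).card + 1 + 1 := by
    refine (card_le_card h1).trans ?_
    refine (card_insert_le _ _).trans ?_
    exact Nat.add_le_add_right (card_insert_le _ _) 1
  have h3 : ∑ q ∈ (univ.filter fun q => Pure M x y J q),
      ((gaps M x y J).filter fun c =>
        Has M x y J q s(ww M y c.1 c.2, ww M y c.1 (c.2 + 1))).card ≤ (gaps M x y J).card := by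
    have hs := sum_card_bipartiteAbove_eq_sum_card_bipartiteBelow
      (s := univ.filter fun q => Pure M x y J q) (t := gaps M x y J)
      (fun (q : Quot (lk M (inU M x y J))) (c : (_ : F) × ℕ) =>
        Has M x y J q s(ww M y c.1 c.2, ww M y c.1 (c.2 + 1)))
    refine (le_of_eq hs).trans ?_
    have h4 : ∑ c ∈ gaps M x y J, 1 = (gaps M x y J).card := by
      rw [sum_const, smul_eq_mul, mul_one]
    rw [← h4]
    refine sum_le_sum fun c hc => ?_
    rw [card_le_one]
    intro q hq q' hq'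
    obtain ⟨hqD, g, hg, hgq⟩ := mem_filter.1 hq
    obtain ⟨hqD', g', hg', hgq'⟩ := mem_filter.1 hq'
    obtain ⟨-, -, hqy⟩ := mem_filter.1 hqD
    obtain ⟨-, -, hqy'⟩ := mem_filter.1 hqD'
    have hcJ : c.1 ∈ J := by
      unfold gaps at hc
      exact (mem_sigma.1 hc).1
    have hcy : OnV M.toCyc c.1 y := hT.jy c.1 hcJ
    have hcE : OnE M.toCyc c.1 s(ww M y c.1 c.2, ww M y c.1 (c.2 + 1)) :=
      ⟨st M y c.1 + c.2, rfl⟩
    obtain ⟨f', -, -, hall⟩ := M.two _ _ hcE
    have e1 : g = f' := by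
      rcases hall g hg with h | h
      · exact absurd (by rw [← hgq, h]) (hqy c.1 hcy)
      · exact h
    have e2 : g' = f' := by
      rcases hall g' hg' with h | h
      · exact absurd (by rw [← hgq', h]) (hqy' c.1 hcy)
      · exact h
    rw [← hgq, ← hgq', e1, e2]
  have h5 : ∑ q ∈ (univ.filter fun q => Pure M x y J q), 2 ≤
      ∑ q ∈ (univ.filter fun q => Pure M x y J q),
        (((gaps M x y J).filter fun c =>
          Has M x y J q s(ww M y c.1 c.2, ww M y c.1 (c.2 + 1))).card +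
          if SP M x y J q then 1 else 0) := by
    refine sum_le_sum fun q hq => ?_
    have hp : Pure M x y J q := (mem_filter.1 hq).2
    rcases hCLS V F M x y J hT q hp with ⟨c1, hc1, c2, hc2, hne, h1, h2⟩ | ⟨⟨c1, hc1, h1⟩, hsp⟩
    · have : 2 ≤ ((gaps M x y J).filter fun c =>
          Has M x y J q s(ww M y c.1 c.2, ww M y c.1 (c.2 + 1))).card := by
        refine Nat.succ_le_of_lt (one_lt_card.2 ?_)
        exact ⟨c1, mem_filter.2 ⟨hc1, h1⟩, c2, mem_filter.2 ⟨hc2, h2⟩, hne⟩
      exact this.trans (Nat.le_add_right _ _)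
    · rw [if_pos hsp]
      have : 1 ≤ ((gaps M x y J).filter fun c =>
          Has M x y J q s(ww M y c.1 c.2, ww M y c.1 (c.2 + 1))).card :=
        card_pos.2 ⟨c1, mem_filter.2 ⟨hc1, h1⟩⟩
      exact Nat.add_le_add_right this 1
  rw [sum_const, smul_eq_mul, sum_add_distrib, ← card_filter, filter_filter] at h5
  have h6 : Set.ncard {q | Pure M x y J q ∧ SP M x y J q} =
      (univ.filter fun q => Pure M x y J q ∧ SP M x y J q).card := by
    rw [← Set.ncard_coe_finset]
    congr 1
    ext q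
    simp only [Set.mem_ofPred_eq, coe_filter, mem_univ, true_and]
  have h7 := hRHO V F M x y J hT
  rw [h6] at h7
  omega

end Pool.Agent.helper84.NR
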